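import Pool.Agent.Helper326.HB.Main
import Pool.Agent.Helper326.HB.PD

open Pool.Agent.Helper326.ProperDisc

namespace Pool.Agent.Results.MP_071e05_an.NonlinearDisc

theorem discrete_of (Γ : Subgroup (Bk 2 ≃ₜ Bk 2))
    (h : DiscreteTopology {c : C(Bk 2, Bk 2) | ∃ γ ∈ Γ, c = (γ : C(Bk 2, Bk 2))}) :
    IsDiscreteGroup Γ := by
  have : {c : C(Bk 2, Bk 2) | ∃ γ ∈ Γ, ∀ z, c z = γ z} =
      {c : C(Bk 2, Bk 2) | ∃ γ ∈ Γ, c = (γ : C(Bk 2, Bk 2))} := by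
    ext c
    constructor
    · rintro ⟨γ, hγ, h⟩
      exact ⟨γ, hγ, ContinuousMap.ext h⟩
    · rintro ⟨γ, hγ, rfl⟩
      exact ⟨γ, hγ, fun z => rfl⟩
  unfold IsDiscreteGroup
  rw [this]
  exact h

/-- Negative answer to Q1, with `n = 1`, `N = 2`: there are a discrete subgroup `Γ` of `Aut(𝔹²)` and a
proper holomorphic embedding `f : 𝔹¹ → 𝔹²` of the disc with `Γ`-invariant image and compact orbit
space `f(𝔹¹)/Γ`, such that `f` is not linear; moreover the image of `f` is contained in no complex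
affine line. -/
theorem result :
    ∃ (Γ : Subgroup (Bk 2 ≃ₜ Bk 2)) (f : Bk 1 → Bk 2),
      (∀ γ ∈ Γ, IsAut γ) ∧ IsDiscreteGroup Γ ∧ IsProperHoloEmbedding f ∧
      (∀ γ ∈ Γ, ∀ z, ∃ z', γ (f z) = f z') ∧ CompactOrbitSpace Γ (Set.range f) ∧
      ¬ IsLinear f ∧ ¬ InLine f := by
  obtain ⟨Γ, f, h1, h2, h3, h4, h5, h6, h7⟩ := Pool.Agent.Helper326.HB.main_exists
  refine ⟨Γ, f, ?_, ?_, ?_, h4, ?_, ?_, h7⟩
  · intro γ hγ
    exact h1 hγ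
  · exact discrete_of Γ h2
  · exact ⟨h3.1, h3.2.1, h3.2.2⟩
  · exact h5
  · rintro ⟨φ, ψ, h⟩
    exact h6 ⟨φ, h.1, ψ, h.2.1, h.2.2⟩

end Pool.Agent.Results.MP_071e05_an.NonlinearDisc
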